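import Pool.Agent.W996.EC.Stm
import Pool.Agent.Helper202.Riemann

/-!
# EC-IRR: the irrational case, zeros of the leading coefficient
-/

set_option autoImplicit false
set_option linter.all false

open MvPolynomial Filter Topology Set Pool.Agent.W996.EC

namespace Pool.Agent.W366.EC

/-- locally uniform convergence from joint continuity -/
lemma tlu_param {T : Type*} [TopologicalSpace T] {V : Set ℂ} {Φ : T → ℂ → ℂ}
    (hΦ : ContinuousOn (fun q : T × ℂ => Φ q.1 q.2) (univ ×ˢ V)) {t : ℕ → T} {t0 : T}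
    (ht : Tendsto t atTop (𝓝 t0)) :
    TendstoLocallyUniformlyOn (fun j w => Φ (t j) w) (Φ t0) atTop V := by
  rw [tendstoLocallyUniformlyOn_iff_forall_tendsto]
  intro x hx
  have h1 := hΦ (t0, x) ⟨mem_univ _, hx⟩
  unfold ContinuousWithinAt at h1
  rw [nhdsWithin_prod_eq, nhdsWithin_univ] at h1
  have h2 : Tendsto (fun y : ℕ × ℂ => (t y.1, y.2)) (atTop ×ˢ 𝓝[V] x) (𝓝 t0 ×ˢ 𝓝[V] x) :=
    (ht.comp tendsto_fst).prodMk tendsto_snd
  have h3 : Tendsto (fun y : ℕ × ℂ => (t0, y.2)) (atTop ×ˢ 𝓝[V] x) (𝓝 t0 ×ˢ 𝓝[V] x) :=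
    tendsto_const_nhds.prodMk tendsto_snd
  have h4 := (h1.comp h3).prodMk_nhds (h1.comp h2)
  exact h4.mono_right (nhds_le_uniformity _)

/-- Hurwitz with an eventual hypothesis -/
lemma hurwitz' {V : Set ℂ} (hV : IsOpen V) {F : ℕ → ℂ → ℂ} {f : ℂ → ℂ}
    (hd : ∀ i, DifferentiableOn ℂ (F i) V) (hlim : TendstoLocallyUniformlyOn F f atTop V)
    (hne : ∀ᶠ i in atTop, ∀ z ∈ V, F i z ≠ 0) {a : ℂ} (ha : a ∈ V) (h0 : f a = 0) :
    ∀ᶠ z in 𝓝 a, f z = 0 := by
  classical
  set F' : ℕ → ℂ → ℂ := fun i => if (∀ z ∈ V, F i z ≠ 0) then F i else fun _ => 1 with hF'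
  refine Pool.Agent.Helper202.Riemann.hurwitz (l := atTop) hV (F := F') ?_ ?_ ?_ ha h0
  · intro i
    rw [hF']
    simp only
    split_ifs
    · exact hd i
    · exact differentiableOn_const _
  · refine hlim.congr_inseparable ?_
    filter_upwards [hne] with i hi x _
    rw [hF']
    simp only
    rw [if_pos hi]
  · intro i z hz
    rw [hF']
    simp only
    split_ifs with h
    · exact h z hz
    · exact one_ne_zero

/-! ### the leading coefficient -/

/-- exponents of degree at most `d` -/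
noncomputable def Sd (n d : ℕ) : Finset (Fin n →₀ ℕ) := by
  classical
  exact (Finset.range (d + 1)).biUnion (fun k => Finset.univ.finsuppAntidiag k)

lemma mem_Sd {n d : ℕ} {m : Fin n →₀ ℕ} : m ∈ Sd n d ↔ ∑ i, m i ≤ d := by
  classical
  unfold Sd
  rw [Finset.mem_biUnion]
  constructor
  · rintro ⟨k, hk, hm⟩
    rw [Finset.mem_finsuppAntidiag] at hm
    rw [hm.1]
    exact Nat.lt_succ_iff.1 (Finset.mem_range.1 hk)
  · intro h
    exact ⟨_, Finset.mem_range.2 (Nat.lt_succ_of_le h),
      Finset.mem_finsuppAntidiag.2 ⟨rfl, Finset.subset_univ _⟩⟩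

lemma supp_sub {n d : ℕ} {q : MvPolynomial (Fin n) ℂ} (hq : q.totalDegree ≤ d) :
    q.support ⊆ Sd n d := by
  intro m hm
  rw [mem_Sd]
  have h := le_totalDegree hm
  rw [Finsupp.sum_fintype _ _ (fun _ => rfl)] at h
  exact h.trans hq

/-- the rescaled polynomial -/
noncomputable def Ps (n d : ℕ) (ε : ℂ) (z : Fin n → ℂ) (q : MvPolynomial (Fin n) ℂ) : ℂ :=
  ∑ m ∈ Sd n d, coeff m q * ε ^ (d - ∑ i, m i) * ∏ i, z i ^ m i

lemma Ps_ne {n d : ℕ} {ε : ℂ} (hε : ε ≠ 0) (z : Fin n → ℂ) {q : MvPolynomial (Fin n) ℂ}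
    (hq : q.totalDegree ≤ d) : Ps n d ε z q = ε ^ d * eval (fun i => ε⁻¹ * z i) q := by
  rw [eval_eq', Finset.sum_subset (supp_sub hq) (fun m _ hm => by
    rw [notMem_support_iff.1 hm, zero_mul]), Finset.mul_sum]
  unfold Ps
  refine Finset.sum_congr rfl fun m hm => ?_
  rw [mem_Sd] at hm
  simp_rw [mul_pow]
  rw [Finset.prod_mul_distrib, Finset.prod_pow_eq_pow_sum]
  have h1 : ε ^ d = ε ^ (d - ∑ i, m i) * ε ^ (∑ i, m i) := by
    rw [← pow_add]
    congr 1
    omega
  rw [h1, inv_pow]
  have h2 : ε ^ (∑ i, m i) ≠ 0 := pow_ne_zero _ hε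
  field_simp

lemma Ps_zero {n d : ℕ} (z : Fin n → ℂ) {q : MvPolynomial (Fin n) ℂ}
    (hq : q.totalDegree ≤ d) : Ps n d 0 z q = eval z (homogeneousComponent d q) := by
  have hq' : (homogeneousComponent d q).totalDegree ≤ d := by
    by_cases h : homogeneousComponent d q = 0
    · rw [h, totalDegree_zero]; exact Nat.zero_le _
    · exact ((homogeneousComponent_isHomogeneous d q).totalDegree h).le
  rw [eval_eq', Finset.sum_subset (supp_sub hq') (fun m _ hm => by
    rw [notMem_support_iff.1 hm, zero_mul])]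
  unfold Ps
  refine Finset.sum_congr rfl fun m hm => ?_
  rw [mem_Sd] at hm
  rw [coeff_homogeneousComponent, Finsupp.degree_eq_sum]
  split_ifs with h
  · rw [h, Nat.sub_self, pow_zero, mul_one]
  · rw [zero_pow (by omega)]
    ring

lemma eval_hom_smul {n d : ℕ} (c : ℂ) (z : Fin n → ℂ) (q : MvPolynomial (Fin n) ℂ) :
    eval (fun i => c * z i) (homogeneousComponent d q) =
      c ^ d * eval z (homogeneousComponent d q) := by
  rw [eval_eq', eval_eq', Finset.mul_sum]
  refine Finset.sum_congr rfl fun m hm => ?_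
  have h1 : m.degree = d := by
    by_contra hne
    rw [mem_support_iff, coeff_homogeneousComponent, if_neg hne] at hm
    exact hm rfl
  rw [Finsupp.degree_eq_sum] at h1
  simp_rw [mul_pow]
  rw [Finset.prod_mul_distrib, Finset.prod_pow_eq_pow_sum, h1]
  ring

theorem t_lead : S_lead := by
  intro n d κ0 x p w0 ρ hρ hx hp hdeg h0 hne
  by_contra hcon
  push Not at hcon
  apply hne
  set V := Metric.ball w0 ρ with hV
  have hVo : IsOpen V := Metric.isOpen_ball
  set κ : Fin n → ℂ := fun i => 2 * Real.pi * Complex.I * (κ0 i : ℂ) with hκ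
  set Φ : ℝ → ℂ → ℂ := fun ε w => Ps n d (ε : ℂ) (fun i => (ε : ℂ) * x w i + κ i) (p w) with hΦ
  have hcont : ContinuousOn (fun q : ℝ × ℂ => Φ q.1 q.2) (univ ×ˢ V) := by
    rw [hΦ]
    unfold Ps
    simp only
    refine continuousOn_finsetSum _ fun m _ => ?_
    have c0 : ContinuousOn (fun q : ℝ × ℂ => (q.1 : ℂ)) (univ ×ˢ V) :=
      (Complex.continuous_ofReal.comp continuous_fst).continuousOn
    have c1 : ContinuousOn (fun q : ℝ × ℂ => coeff m (p q.2)) (univ ×ˢ V) :=
      (hp m).continuousOn.comp continuousOn_snd fun q hq => hq.2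
    refine (c1.mul (c0.pow _)).mul ?_
    refine continuousOn_finsetProd _ fun i _ => ?_
    have c2 : ContinuousOn (fun q : ℝ × ℂ => x q.2 i) (univ ×ˢ V) :=
      (hx i).continuousOn.comp continuousOn_snd fun q hq => hq.2
    exact ((c0.mul c2).add continuousOn_const).pow _
  have ht : Tendsto (fun j : ℕ => (1 / ((j : ℝ) + 1))) atTop (𝓝 0) :=
    tendsto_one_div_add_atTop_nhds_zero_nat
  have hlim := tlu_param hcont ht
  have hzero : ∀ w, Φ 0 w = (2 * Real.pi * Complex.I) ^ d *
      eval (fun i => (κ0 i : ℂ)) (homogeneousComponent d (p w)) := by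
    intro w
    rw [hΦ]
    simp only [Complex.ofReal_zero]
    rw [Ps_zero _ (hdeg w)]
    simp only [zero_mul, zero_add]
    rw [hκ]
    exact eval_hom_smul _ _ _
  have hd : ∀ j : ℕ, DifferentiableOn ℂ (fun w => Φ (1 / ((j : ℝ) + 1)) w) V := by
    intro j
    rw [hΦ]
    unfold Ps
    simp only
    refine DifferentiableOn.fun_sum fun m _ => ?_
    refine ((hp m).mul (differentiableOn_const _)).mul ?_
    refine DifferentiableOn.fun_finsetProd fun i _ => ?_
    exact ((((hx i).const_mul _).add (differentiableOn_const _)).pow _)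
  have hne' : ∀ j : ℕ, ∀ w ∈ V, Φ (1 / ((j : ℝ) + 1)) w ≠ 0 := by
    intro j w hw
    rw [hΦ]
    simp only
    have hj : ((j : ℂ) + 1) ≠ 0 := by exact_mod_cast Nat.succ_ne_zero j
    have hε : ((1 / ((j : ℝ) + 1) : ℝ) : ℂ) ≠ 0 := by
      push_cast
      exact one_div_ne_zero hj
    rw [Ps_ne hε _ (hdeg w)]
    refine mul_ne_zero (pow_ne_zero _ hε) ?_
    have h1 := hcon w hw (fun i => ((j : ℤ) + 1) * κ0 i)
    have h2 : (fun i => (((1 / ((j : ℝ) + 1) : ℝ) : ℂ))⁻¹ * (((1 / ((j : ℝ) + 1) : ℝ) : ℂ) * x w i +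
        κ i)) = fun i => x w i + 2 * Real.pi * Complex.I * ((((j : ℤ) + 1) * κ0 i : ℤ) : ℂ) := by
      funext i
      rw [hκ]
      simp only
      push_cast
      field_simp
    rw [h2]
    exact h1
  have hfin := hurwitz' hVo hd hlim (Eventually.of_forall hne') (Metric.mem_ball_self hρ)
    (by rw [hzero, h0, mul_zero])
  filter_upwards [hfin] with w hw
  rw [hzero] at hw
  rcases mul_eq_zero.1 hw with h1 | h1
  · exfalso
    have : (2 * (Real.pi : ℂ) * Complex.I) ≠ 0 := Complex.two_pi_I_ne_zero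
    exact pow_ne_zero _ this h1
  · exact h1

/-! ### the irrational case -/

lemma diff_eval {n : ℕ} {V : Set ℂ} {y : ℂ → Fin n → ℂ}
    (hy : ∀ i, DifferentiableOn ℂ (fun w => y w i) V) (q : MvPolynomial (Fin n) ℂ) :
    DifferentiableOn ℂ (fun w => eval (y w) q) V := by
  simp only [eval_eq']
  refine DifferentiableOn.fun_sum fun m _ => ?_
  refine (differentiableOn_const _).mul ?_
  exact DifferentiableOn.fun_finsetProd fun i _ => (hy i).pow _

lemma eval_aeval_lin {n : ℕ} (l : Fin n → ℝ) (g : Polynomial ℂ) (y : Fin n → ℂ) :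
    eval y (Polynomial.aeval (lin l) g) = g.eval (∑ i, (l i : ℂ) * y i) := by
  rw [Polynomial.aeval_def, Polynomial.hom_eval₂, eval_lin]
  have : (eval y).comp (algebraMap ℂ (MvPolynomial (Fin n) ℂ)) = RingHom.id ℂ := by
    ext a
    simp
  rw [this, Polynomial.eval₂_id]

theorem t_irr (hU : S_unif) : S_irr := by
  intro n P l g M c s hg hs hconv hdense x w0 ρ hρ hx hnc hre
  by_contra hcon
  push Not at hcon
  set V := Metric.ball w0 ρ with hV
  have hVo : IsOpen V := Metric.isOpen_ball
  have hVc : IsPreconnected V := (convex_ball w0 ρ).isPreconnected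
  have hw0 : w0 ∈ V := Metric.mem_ball_self hρ
  set L : ℂ → ℂ := fun w => ∑ i, (l i : ℂ) * x w i with hL
  have hLd : DifferentiableOn ℂ L V :=
    DifferentiableOn.fun_sum fun i _ => (hx i).const_mul _
  have hgd : ∀ e : ℂ, DifferentiableOn ℂ (fun w => g.eval (L w + e)) V := fun e =>
    g.differentiable.comp_differentiableOn (hLd.add_const e)
  have key : ∀ (e : ℂ) (a : ℂ), a ∈ V → ¬ ∀ᶠ w in 𝓝 a, g.eval (L w + e) = 0 := by
    intro e a ha hev
    have h1 : EqOn (fun w => g.eval (L w + e)) 0 V :=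
      ((hgd e).analyticOnNhd hVo).eqOn_zero_of_preconnected_of_eventuallyEq_zero hVc ha hev
    have hfin : {z : ℂ | g.eval z = 0}.Finite := by
      refine (g.roots.toFinset.finite_toSet).subset fun z hz => ?_
      rw [Finset.mem_coe, Multiset.mem_toFinset, Polynomial.mem_roots hg]
      exact hz
    have hmaps : MapsTo (fun w => L w + e) V {z : ℂ | g.eval z = 0} := fun w hw => h1 hw
    have h2 : ∀ w ∈ V, L w + e = L w0 + e := fun w hw =>
      hVc.constant_of_mapsTo hfin.isDiscrete (hLd.add_const e).continuousOn hmaps hw hw0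
    apply hnc
    filter_upwards [hVo.mem_nhds hw0] with w hw
    exact add_right_cancel (h2 w hw)
  -- the functions at integral translates have no zeros
  have step1 : ∀ N : Fin n → ℤ, ∀ w ∈ V,
      g.eval (L w + 2 * Real.pi * Complex.I * ((∑ i, l i * (N i : ℝ) : ℝ) : ℂ)) ≠ 0 := by
    intro N
    set e : ℂ := 2 * Real.pi * Complex.I * ((∑ i, l i * (N i : ℝ) : ℝ) : ℂ) with he
    set y : ℂ → Fin n → ℂ := fun w i => x w i + 2 * Real.pi * Complex.I * (N i : ℂ) with hy
    have hyd : ∀ i, DifferentiableOn ℂ (fun w => y w i) V := fun i => (hx i).add_const _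
    have hyc : ContinuousOn y V := continuousOn_pi.2 fun i => (hyd i).continuousOn
    have h1 := hU n _ _ hconv V (fun _ => y) y hVo hyc (by
      intro u hu x hx
      exact ⟨V, self_mem_nhdsWithin, Eventually.of_forall fun j z _ => refl_mem_uniformity hu⟩)
    have hlimeq : ∀ w, eval (y w) (Polynomial.aeval (lin l) g) = g.eval (L w + e) := by
      intro w
      rw [eval_aeval_lin]
      congr 1
      rw [hL, he, hy]
      simp only
      push_cast
      rw [Finset.mul_sum, ← Finset.sum_add_distrib]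
      refine Finset.sum_congr rfl fun i _ => ?_
      ring
    have hF : ∀ j w, eval (y w) (C (c j) * trZ (M j) P) =
        c j * eval (fun i => x w i + 2 * Real.pi * Complex.I * (((N i + M j i : ℤ)) : ℂ)) P := by
      intro j w
      rw [eval_mul, eval_C, trZ, eval_tr]
      congr 2
      apply congrArg
      funext i
      rw [hy]
      simp only
      push_cast
      ring
    obtain ⟨w1, hw1, hw1'⟩ : ∃ w ∈ V, g.eval (L w + e) ≠ 0 := by
      by_contra hc
      push Not at hc
      apply key e w0 hw0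
      filter_upwards [hVo.mem_nhds hw0] with w hw
      exact hc w hw
    have hcne : ∀ᶠ j in atTop, c j ≠ 0 := by
      have h2 := h1.tendsto_at hw1
      have h3 : eval (y w1) (Polynomial.aeval (lin l) g) ≠ 0 := by rw [hlimeq]; exact hw1'
      filter_upwards [h2.eventually_ne h3] with j hj hcj
      apply hj
      rw [hF, hcj, zero_mul]
    intro a ha h0
    have h4 := hurwitz' hVo (F := fun j w => eval (y w) (C (c j) * trZ (M j) P))
      (fun j => diff_eval hyd _) h1 (by
        filter_upwards [hcne] with j hj w hw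
        rw [hF]
        exact mul_ne_zero hj (hcon w hw (fun i => N i + M j i))) ha (by rw [hlimeq]; exact h0)
    apply key e a ha
    filter_upwards [h4] with w hw
    rw [← hlimeq]; exact hw
  -- the limit
  set η0 : ℝ := (s - L w0).im with hη0
  have hsL : L w0 + Complex.I * (η0 : ℂ) = s := by
    apply Complex.ext
    · simp only [Complex.add_re, Complex.mul_re, Complex.I_re, Complex.I_im, Complex.ofReal_re,
        Complex.ofReal_im]
      have : (L w0).re = s.re := hre
      linarith
    · simp only [Complex.add_im, Complex.mul_im, Complex.I_re, Complex.I_im, Complex.ofReal_re,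
        Complex.ofReal_im]
      rw [hη0, Complex.sub_im]
      ring
  obtain ⟨u, hu, hulim⟩ := mem_closure_iff_seq_limit.1 (hdense (η0 / (2 * Real.pi)))
  choose N hN using hu
  have hpi : (2 * Real.pi : ℝ) ≠ 0 := by positivity
  set Φ : ℝ → ℂ → ℂ := fun t w => g.eval (L w + 2 * Real.pi * Complex.I * (t : ℂ)) with hΦ
  have hcont : ContinuousOn (fun q : ℝ × ℂ => Φ q.1 q.2) (univ ×ˢ V) := by
    refine g.continuous.comp_continuousOn ?_
    refine (hLd.continuousOn.comp continuousOn_snd fun q hq => hq.2).add ?_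
    exact (continuous_const.mul (Complex.continuous_ofReal.comp continuous_fst)).continuousOn
  have hlim := tlu_param hcont hulim
  have hfin := hurwitz' hVo (F := fun j w => Φ (u j) w) (fun j => hgd _) hlim
    (Eventually.of_forall fun j w hw => by
      have := step1 (N j) w hw
      rw [show (∑ i, l i * ((N j i : ℤ) : ℝ)) = u j from hN j] at this
      exact this) hw0 (by
      rw [hΦ]
      simp only
      have : (2 : ℂ) * Real.pi * Complex.I * ((η0 / (2 * Real.pi) : ℝ) : ℂ) =
          Complex.I * (η0 : ℂ) := by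
        have hpi' : (Real.pi : ℂ) ≠ 0 := by exact_mod_cast Real.pi_ne_zero
        push_cast
        field_simp
      rw [this, hsL]
      exact hs)
  exact key _ w0 hw0 hfin

end Pool.Agent.W366.EC
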