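import Pool.Agent.W996.EC.VStm

/-!
# EC-KERN
-/

set_option autoImplicit false
set_option linter.all false

namespace Pool.Agent.W366.EC

open Polynomial Pool.Agent.W996.EC

theorem clear_denom' {R : Type*} [CommRing R] [IsDomain R] (u : (FractionRing R)[X]) :
    ∃ (b : R) (v : R[X]), b ≠ 0 ∧
    v.map (algebraMap R (FractionRing R)) = C (algebraMap R (FractionRing R) b) * u := by
  obtain ⟨b, hb, h⟩ := IsLocalization.integerNormalization_spec (nonZeroDivisors R) u
  refine ⟨b, _, nonZeroDivisors.ne_zero hb, h.trans ?_⟩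
  ext i
  simp [Algebra.smul_def]

theorem res' {R : Type*} [CommRing R] [IsDomain R] [UniqueFactorizationMonoid R] (F G : R[X])
    (hF : Irreducible F) (hd : 1 ≤ F.natDegree) (hG : ¬ F ∣ G) :
    ∃ (a b : R[X]) (r : R), r ≠ 0 ∧ a * F + b * G = C r := by
  classical
  set φ := algebraMap R (FractionRing R) with hφ
  have hφi : Function.Injective φ := IsFractionRing.injective R (FractionRing R)
  have hmi : Function.Injective (Polynomial.map φ) := Polynomial.map_injective φ hφi
  have hprim : F.IsPrimitive := hF.isPrimitive (by omega)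
  have hFK : Irreducible (F.map φ) :=
    (IsPrimitive.irreducible_iff_irreducible_map_fraction_map hprim).1 hF
  have hGK : ¬ F.map φ ∣ G.map φ := by
    rintro ⟨u, hu⟩
    obtain ⟨b, v, hb, hv⟩ := clear_denom' u
    have h1 : F * v = C b * G := by
      apply hmi
      rw [← hφ] at hv
      rw [Polynomial.map_mul, Polynomial.map_mul, Polynomial.map_C, hu, hv]
      ring
    have hpr : Prime F := UniqueFactorizationMonoid.irreducible_iff_prime.1 hF
    rcases hpr.dvd_or_dvd ⟨v, h1.symm⟩ with h2 | h2
    · have h3 := Polynomial.natDegree_le_of_dvd h2 (by simpa using hb)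
      rw [natDegree_C] at h3
      omega
    · exact hG h2
  obtain ⟨a, b, hab⟩ := (hFK.coprime_iff_not_dvd).2 hGK
  obtain ⟨ba, va, hba, hva⟩ := clear_denom' a
  obtain ⟨bb, vb, hbb, hvb⟩ := clear_denom' b
  refine ⟨C bb * va, C ba * vb, bb * ba, mul_ne_zero hbb hba, ?_⟩
  apply hmi
  rw [← hφ] at hva hvb
  simp only [Polynomial.map_add, Polynomial.map_mul, Polynomial.map_C, hva, hvb, map_mul]
  linear_combination (C (φ bb) * C (φ ba)) * hab

theorem t_kern : S_kern := by
  intro K L _ _ _ n x hdep ⟨J, hJ, hind⟩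
  classical
  -- the missing index
  obtain ⟨i0, hi0⟩ : ∃ i0, i0 ∉ J := by
    by_contra hcon
    push Not at hcon
    apply hdep
    have h1 := hind.comp (fun i : Fin n => (⟨i, hcon i⟩ : J)) (fun i j h => by
      simpa using h)
    exact h1
  have hJe : ∀ i, i ≠ i0 → i ∈ J := by
    intro i hi
    by_contra hiJ
    have h1 : J ⊆ (Finset.univ.erase i0).erase i := by
      intro j hj
      rw [Finset.mem_erase, Finset.mem_erase]
      exact ⟨fun h => hiJ (h ▸ hj), fun h => hi0 (h ▸ hj), Finset.mem_univ _⟩
    have h2 := Finset.card_le_card h1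
    rw [Finset.card_erase_of_mem (Finset.mem_erase.2 ⟨hi, Finset.mem_univ _⟩),
      Finset.card_erase_of_mem (Finset.mem_univ _), Finset.card_univ, Fintype.card_fin] at h2
    have h3 : 0 < n := i0.pos
    have h4 : n ≠ 1 := by
      rintro rfl
      exact hi (Subsingleton.elim _ _)
    omega
  set σ := {i : Fin n // i ≠ i0} with hσ
  have hinj : AlgebraicIndependent K (fun j : σ => x j.1) :=
    hind.comp (fun j : σ => (⟨j.1, hJe j.1 j.2⟩ : J)) (fun i j h => by
      apply Subtype.ext
      simpa using h)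
  set ψ : MvPolynomial σ K →ₐ[K] L := MvPolynomial.aeval (fun j : σ => x j.1) with hψ
  have hψi : Function.Injective ψ := hinj
  -- the isomorphism
  set e : Fin n ≃ Option σ := (Equiv.optionSubtypeNe i0).symm with he
  set Ψ : MvPolynomial (Fin n) K ≃ₐ[K] (MvPolynomial σ K)[X] :=
    (MvPolynomial.renameEquiv K e).trans (MvPolynomial.optionEquivLeft K σ) with hΨ
  set Ev : (MvPolynomial σ K)[X] →+* L := Polynomial.eval₂RingHom (ψ : MvPolynomial σ K →+* L)
    (x i0) with hEv
  have hcomp : ∀ f, Ev (Ψ f) = MvPolynomial.aeval x f := by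
    intro f
    have h1 : (Ev.comp (Ψ : MvPolynomial (Fin n) K →+* (MvPolynomial σ K)[X])) =
        ((MvPolynomial.aeval x : MvPolynomial (Fin n) K →ₐ[K] L) : MvPolynomial (Fin n) K →+* L) := by
      apply MvPolynomial.ringHom_ext
      · intro a
        simp only [RingHom.coe_comp, Function.comp_apply, RingHom.coe_coe, hΨ,
          AlgEquiv.trans_apply, MvPolynomial.renameEquiv_apply, MvPolynomial.rename_C,
          MvPolynomial.optionEquivLeft_C, MvPolynomial.aeval_C, hEv, coe_eval₂RingHom, eval₂_C, hψ]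
      · intro i
        by_cases hi : i = i0
        · have h0 : e i0 = none := Equiv.optionSubtypeNe_symm_self i0
          simp only [hi, RingHom.coe_comp, Function.comp_apply, RingHom.coe_coe, hΨ,
            AlgEquiv.trans_apply, MvPolynomial.renameEquiv_apply, MvPolynomial.rename_X, h0,
            MvPolynomial.optionEquivLeft_X_none,
            MvPolynomial.aeval_X, hEv, coe_eval₂RingHom, eval₂_X]
        · simp only [RingHom.coe_comp, Function.comp_apply, RingHom.coe_coe, hΨ,
            AlgEquiv.trans_apply, MvPolynomial.renameEquiv_apply, MvPolynomial.rename_X, he,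
            Equiv.optionSubtypeNe_symm_of_ne hi, MvPolynomial.optionEquivLeft_X_some,
            MvPolynomial.aeval_X, hEv, coe_eval₂RingHom, eval₂_C, hψ]
    exact RingHom.congr_fun h1 f
  -- a nonzero element of the kernel
  obtain ⟨f0, hf00, hf0⟩ : ∃ f0 : (MvPolynomial σ K)[X], f0 ≠ 0 ∧ Ev f0 = 0 := by
    by_contra hcon
    push Not at hcon
    apply hdep
    show Function.Injective (MvPolynomial.aeval x : MvPolynomial (Fin n) K →ₐ[K] L)
    rw [injective_iff_map_eq_zero]
    intro f hf
    by_contra hf1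
    exact hcon (Ψ f) (fun h => hf1 ((map_eq_zero_iff Ψ Ψ.injective).1 h))
      (by rw [hcomp]; exact hf)
  -- an irreducible element of the kernel
  obtain ⟨G, hG, hEG⟩ : ∃ G : (MvPolynomial σ K)[X], Irreducible G ∧ Ev G = 0 := by
    have key : ∀ f : (MvPolynomial σ K)[X], f ≠ 0 → Ev f = 0 →
        ∃ G : (MvPolynomial σ K)[X], Irreducible G ∧ Ev G = 0 := by
      intro f
      refine UniqueFactorizationMonoid.induction_on_prime f ?_ ?_ ?_
      · intro h; exact absurd rfl h
      · intro u hu _ hE
        exact absurd hE (hu.map Ev).ne_zero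
      · intro a p ha hp ih _ hE
        rw [map_mul] at hE
        rcases mul_eq_zero.1 hE with h1 | h1
        · exact ⟨p, hp.irreducible, h1⟩
        · exact ih ha h1
    exact key f0 hf00 hf0
  have hGd : 1 ≤ G.natDegree := by
    by_contra hcon
    have h1 : G = C (G.coeff 0) := eq_C_of_natDegree_eq_zero (by omega)
    have h2 : ψ (G.coeff 0) = 0 := by
      have h3 := hEG
      rw [h1, hEv, coe_eval₂RingHom, eval₂_C] at h3
      exact h3
    have h3 : G.coeff 0 = 0 := (map_eq_zero_iff ψ hψi).1 h2
    rw [h3, C_0] at h1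
    exact hG.ne_zero h1
  refine ⟨Ψ.symm G, ?_, fun f => ?_⟩
  · exact (MulEquiv.irreducible_iff (Ψ.symm : (MvPolynomial σ K)[X] ≃* MvPolynomial (Fin n) K)).2 hG
  · rw [← hcomp f]
    constructor
    · intro hf
      have h1 : G ∣ Ψ f := by
        by_contra hnd
        obtain ⟨a, b, r, hr, hab⟩ := res' G (Ψ f) hG hGd hnd
        have h2 := congrArg Ev hab
        rw [map_add, map_mul, map_mul, hEG, hf, mul_zero, mul_zero, add_zero, hEv,
          coe_eval₂RingHom, eval₂_C] at h2
        exact hr ((map_eq_zero_iff ψ hψi).1 h2.symm)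
      obtain ⟨g, hg⟩ := h1
      refine ⟨Ψ.symm g, ?_⟩
      rw [← map_mul, ← hg, AlgEquiv.symm_apply_apply]
    · rintro ⟨g, rfl⟩
      rw [map_mul, AlgEquiv.apply_symm_apply, map_mul, hEG, zero_mul]

end Pool.Agent.W366.EC
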